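import Mathlib
import Pool.Agent.KS6_63.MX.Main

/-!
# MP_42bdc2_co: thick patterns bound the mixed page number polynomially (helper63)

Ordered graphs are simple graphs on `Fin n` with its usual order.  The definitions and the easy
lemmas of this file are after helper973; the polynomial bound is in `Pool.Agent.KS6_63.MX`.
-/

set_option autoImplicit false

namespace Pool.Agent.Results.MP_42bdc2_co.Polynomial

open Pool.Agent.KS6_63.MX

/-- `e = (u, v)` is an edge of `G` with `u < v` -/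
def IsEdge {n : ℕ} (G : SimpleGraph (Fin n)) (e : Fin n × Fin n) : Prop :=
  e.1 < e.2 ∧ G.Adj e.1 e.2

/-- the edges `e = (u, v)` and `f = (x, y)` satisfy `u < x < v < y` -/
def Cross {n : ℕ} (e f : Fin n × Fin n) : Prop := e.1 < f.1 ∧ f.1 < e.2 ∧ e.2 < f.2

/-- the edges `e = (u, v)` and `f = (x, y)` satisfy `u < x` and `y < v` -/
def Nest {n : ℕ} (e f : Fin n × Fin n) : Prop := e.1 < f.1 ∧ f.2 < e.2

/-- no two crossing edges -/
def IsStack {n : ℕ} (S : Set (Fin n × Fin n)) : Prop := ∀ e ∈ S, ∀ f ∈ S, ¬ Cross e f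

/-- no two nesting edges -/
def IsQueue {n : ℕ} (S : Set (Fin n × Fin n)) : Prop := ∀ e ∈ S, ∀ f ∈ S, ¬ Nest e f

/-- the edge set of `G` splits into `k` (possibly empty) parts, each a stack or a queue -/
def HasPages {n : ℕ} (G : SimpleGraph (Fin n)) (k : ℕ) : Prop :=
  ∃ c : {e : Fin n × Fin n // IsEdge G e} → Fin k,
    ∀ i, IsStack {e | ∃ h : IsEdge G e, c ⟨e, h⟩ = i} ∨
      IsQueue {e | ∃ h : IsEdge G e, c ⟨e, h⟩ = i}

/-- the mixed page number -/
noncomputable def mn {n : ℕ} (G : SimpleGraph (Fin n)) : ℕ := sInf {k | HasPages G k}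

/-- an ordered graph on some number of vertices -/
abbrev OGraph := Σ m : ℕ, SimpleGraph (Fin m)

/-- `G` contains the ordered graph `H` as a (not necessarily induced) ordered subgraph -/
def Contains {n : ℕ} (G : SimpleGraph (Fin n)) (H : OGraph) : Prop :=
  ∃ φ : Fin H.1 → Fin n, StrictMono φ ∧ ∀ x y, H.2.Adj x y → G.Adj (φ x) (φ y)

/-- `H` is a `k`-thick pattern: its edges are `e i j` for `i, j < k` (`i` is the copy), every
vertex is an endpoint, and either every copy is a rainbow and edges of different copies cross, or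
every copy is a twist and edges of different copies nest -/
def IsThick (k : ℕ) (H : OGraph) : Prop :=
  ∃ e : Fin k → Fin k → Fin H.1 × Fin H.1,
    (∀ i j, (e i j).1 < (e i j).2) ∧
    (∀ x y, H.2.Adj x y ↔ ∃ i j, e i j = (x, y) ∨ e i j = (y, x)) ∧
    (∀ v, ∃ i j, (e i j).1 = v ∨ (e i j).2 = v) ∧
    (((∀ i j j', j ≠ j' → Nest (e i j) (e i j') ∨ Nest (e i j') (e i j)) ∧
      (∀ i i' j j', i ≠ i' → Cross (e i j) (e i' j') ∨ Cross (e i' j') (e i j))) ∨
     ((∀ i j j', j ≠ j' → Cross (e i j) (e i j') ∨ Cross (e i j') (e i j)) ∧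
      (∀ i i' j j', i ≠ i' → Nest (e i j) (e i' j') ∨ Nest (e i' j') (e i j))))

lemma hasPages_n {n : ℕ} (G : SimpleGraph (Fin n)) : HasPages G n := by
  refine ⟨fun e => e.1.1, fun i => Or.inl ?_⟩
  rintro e ⟨he, he'⟩ f ⟨hf, hf'⟩ hcr
  have h1 : e.1 = i := he'
  have h2 : f.1 = i := hf'
  have := hcr.1
  rw [h1, h2] at this
  exact lt_irrefl _ this

lemma hasPages_mn {n : ℕ} (G : SimpleGraph (Fin n)) : HasPages G (mn G) :=
  Nat.sInf_mem (s := {k | HasPages G k}) ⟨n, hasPages_n G⟩

lemma mn_le {n : ℕ} {G : SimpleGraph (Fin n)} {k : ℕ} (h : HasPages G k) : mn G ≤ k :=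
  Nat.sInf_le h

/-- pigeonhole for pages -/
lemma pages_pigeon {k N : ℕ} (hN : N < k) (c : Fin k → Fin k → Fin N) (T : Fin N → Prop)
    (h1 : ∀ i i' j j', i ≠ i' → c i j = c i' j' → T (c i j) → False)
    (h2 : ∀ i j j', j ≠ j' → c i j = c i j' → ¬ T (c i j) → False) : False := by
  by_cases h : ∃ i, ∀ j, ¬ T (c i j)
  · obtain ⟨i, hi⟩ := h
    have hinj : Function.Injective (c i) := by
      intro j j' hjj
      by_contra hne
      exact h2 i j j' hne hjj (hi j)
    have := Fintype.card_le_of_injective _ hinj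
    simp at this
    omega
  · push Not at h
    choose g hg using h
    have hinj : Function.Injective (fun i => c i (g i)) := by
      intro i i' hii
      by_contra hne
      exact h1 i i' (g i) (g i') hne hii (hg i)
    have := Fintype.card_le_of_injective _ hinj
    simp at this
    omega

lemma cross_map {m n : ℕ} {φ : Fin m → Fin n} (hφ : StrictMono φ) {e f : Fin m × Fin m}
    (h : Cross e f) : Cross (φ e.1, φ e.2) (φ f.1, φ f.2) :=
  ⟨hφ h.1, hφ h.2.1, hφ h.2.2⟩

lemma nest_map {m n : ℕ} {φ : Fin m → Fin n} (hφ : StrictMono φ) {e f : Fin m × Fin m}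
    (h : Nest e f) : Nest (φ e.1, φ e.2) (φ f.1, φ f.2) :=
  ⟨hφ h.1, hφ h.2⟩

lemma thick_lower {n k : ℕ} (G : SimpleGraph (Fin n)) (H : OGraph) (hH : IsThick k H)
    (hc : Contains G H) : k ≤ mn G := by
  by_contra hlt
  push Not at hlt
  obtain ⟨e, he1, he2, _, he4⟩ := hH
  obtain ⟨φ, hφ, hadj⟩ := hc
  obtain ⟨c, hcol⟩ := hasPages_mn G
  have hE : ∀ i j, IsEdge G (φ (e i j).1, φ (e i j).2) := fun i j =>
    ⟨hφ (he1 i j), hadj _ _ ((he2 _ _).2 ⟨i, j, Or.inl rfl⟩)⟩
  have hmem : ∀ i j, (φ (e i j).1, φ (e i j).2) ∈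
      {x | ∃ h : IsEdge G x, c ⟨x, h⟩ = c ⟨_, hE i j⟩} := fun i j => ⟨hE i j, rfl⟩
  rcases he4 with ⟨hA, hB⟩ | ⟨hA, hB⟩
  · refine pages_pigeon hlt (fun i j => c ⟨_, hE i j⟩)
      (fun p => IsStack {x | ∃ h : IsEdge G x, c ⟨x, h⟩ = p}) ?_ ?_
    · intro i i' j j' hne heq hT
      have m1 := hmem i j
      have m2 := hmem i' j'
      beta_reduce at heq hT
      rw [← heq] at m2
      rcases hB i i' j j' hne with h | h
      · exact hT _ m1 _ m2 (cross_map hφ h)
      · exact hT _ m2 _ m1 (cross_map hφ h)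
    · intro i j j' hne heq hT
      have hQ := (hcol (c ⟨_, hE i j⟩)).resolve_left hT
      have m1 := hmem i j
      have m2 := hmem i j'
      beta_reduce at heq
      rw [← heq] at m2
      rcases hA i j j' hne with h | h
      · exact hQ _ m1 _ m2 (nest_map hφ h)
      · exact hQ _ m2 _ m1 (nest_map hφ h)
  · refine pages_pigeon hlt (fun i j => c ⟨_, hE i j⟩)
      (fun p => IsQueue {x | ∃ h : IsEdge G x, c ⟨x, h⟩ = p}) ?_ ?_
    · intro i i' j j' hne heq hT
      have m1 := hmem i j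
      have m2 := hmem i' j'
      beta_reduce at heq hT
      rw [← heq] at m2
      rcases hB i i' j j' hne with h | h
      · exact hT _ m1 _ m2 (nest_map hφ h)
      · exact hT _ m2 _ m1 (nest_map hφ h)
    · intro i j j' hne heq hT
      have hQ := (hcol (c ⟨_, hE i j⟩)).resolve_right hT
      have m1 := hmem i j
      have m2 := hmem i j'
      beta_reduce at heq
      rw [← heq] at m2
      rcases hA i j j' hne with h | h
      · exact hQ _ m1 _ m2 (cross_map hφ h)
      · exact hQ _ m2 _ m1 (cross_map hφ h)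

/-- the pair of values of an edge -/
def vl {n : ℕ} (e : Fin n × Fin n) : Ed := (e.1.val, e.2.val)

open Classical in
noncomputable def edges {n : ℕ} (G : SimpleGraph (Fin n)) : Finset Ed :=
  (Finset.univ.filter (fun e : Fin n × Fin n => IsEdge G e)).image vl

lemma mem_edges {n : ℕ} {G : SimpleGraph (Fin n)} {x : Ed} :
    x ∈ edges G ↔ ∃ e : Fin n × Fin n, IsEdge G e ∧ vl e = x := by
  simp [edges]

lemma wf_edges {n : ℕ} (G : SimpleGraph (Fin n)) : Wf (edges G) := by
  intro x hx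
  obtain ⟨e, he, rfl⟩ := mem_edges.1 hx
  exact he.1

lemma sq_pages {n : ℕ} (G : SimpleGraph (Fin n)) (N : ℕ) (h : SQ (edges G) N) :
    HasPages G (N + N) := by
  obtain ⟨t, c, h1, h2, h3⟩ := h
  have hm : ∀ e : Fin n × Fin n, IsEdge G e → vl e ∈ edges G := fun e he => mem_edges.2 ⟨e, he, rfl⟩
  refine ⟨fun e => ⟨if t (vl e.1) = true then c (vl e.1) else N + c (vl e.1), ?_⟩, ?_⟩
  · have := h1 _ (hm e.1 e.2)
    split_ifs <;> omega
  · intro i
    rcases Nat.lt_or_ge i.val N with hi | hi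
    · left
      rintro e ⟨he, he'⟩ f ⟨hf, hf'⟩ hcr
      have he'' := congrArg Fin.val he'
      have hf'' := congrArg Fin.val hf'
      simp only at he'' hf''
      by_cases hte : t (vl e) = true <;> by_cases htf : t (vl f) = true
      · rw [if_pos hte] at he''
        rw [if_pos htf] at hf''
        exact h2 _ (hm e he) _ (hm f hf) (by omega) hte htf hcr
      · rw [if_neg htf] at hf''; omega
      · rw [if_neg hte] at he''; omega
      · rw [if_neg hte] at he''; omega
    · right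
      rintro e ⟨he, he'⟩ f ⟨hf, hf'⟩ hcr
      have he'' := congrArg Fin.val he'
      have hf'' := congrArg Fin.val hf'
      simp only at he'' hf''
      have b1 := h1 _ (hm e he)
      have b2 := h1 _ (hm f hf)
      by_cases hte : t (vl e) = true <;> by_cases htf : t (vl f) = true
      · rw [if_pos hte] at he''; omega
      · rw [if_pos hte] at he''; omega
      · rw [if_pos htf] at hf''; omega
      · rw [if_neg hte] at he''
        rw [if_neg htf] at hf''
        exact h3 _ (hm e he) _ (hm f hf) (by omega) (by simpa using hte) (by simpa using htf) hcr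

/-- a family of edges gives a contained thick pattern -/
lemma fam_thick {n k : ℕ} (G : SimpleGraph (Fin n)) (e : Fin k → Fin k → Fin n × Fin n)
    (he : ∀ i j, IsEdge G (e i j))
    (h : ((∀ i j j', j ≠ j' → Nest (e i j) (e i j') ∨ Nest (e i j') (e i j)) ∧
      (∀ i i' j j', i ≠ i' → Cross (e i j) (e i' j') ∨ Cross (e i' j') (e i j))) ∨
     ((∀ i j j', j ≠ j' → Cross (e i j) (e i j') ∨ Cross (e i j') (e i j)) ∧
      (∀ i i' j j', i ≠ i' → Nest (e i j) (e i' j') ∨ Nest (e i' j') (e i j)))) :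
    ∃ H : OGraph, IsThick k H ∧ Contains G H := by
  classical
  set V : Finset (Fin n) := Finset.univ.filter (fun v => ∃ i j, (e i j).1 = v ∨ (e i j).2 = v) with hV
  set φ : Fin V.card ↪o Fin n := V.orderEmbOfFin rfl with hφ
  have hrange : ∀ v ∈ V, ∃ x, φ x = v := by
    intro v hv
    have : v ∈ Set.range φ := by
      rw [hφ, Finset.range_orderEmbOfFin]; exact hv
    exact this
  have h1 : ∀ i j, ∃ x, φ x = (e i j).1 := fun i j => hrange _ (by
    rw [hV, Finset.mem_filter]; exact ⟨Finset.mem_univ _, i, j, Or.inl rfl⟩)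
  have h2 : ∀ i j, ∃ x, φ x = (e i j).2 := fun i j => hrange _ (by
    rw [hV, Finset.mem_filter]; exact ⟨Finset.mem_univ _, i, j, Or.inr rfl⟩)
  choose a ha using h1
  choose b hb using h2
  have hcr : ∀ i j i' j', Cross (e i j) (e i' j') → Cross (a i j, b i j) (a i' j', b i' j') := by
    intro i j i' j' hh
    refine ⟨?_, ?_, ?_⟩
    · rw [← φ.lt_iff_lt, ha, ha]; exact hh.1
    · rw [← φ.lt_iff_lt, ha, hb]; exact hh.2.1
    · rw [← φ.lt_iff_lt, hb, hb]; exact hh.2.2
  have hns : ∀ i j i' j', Nest (e i j) (e i' j') → Nest (a i j, b i j) (a i' j', b i' j') := by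
    intro i j i' j' hh
    refine ⟨?_, ?_⟩
    · rw [← φ.lt_iff_lt, ha, ha]; exact hh.1
    · rw [← φ.lt_iff_lt, hb, hb]; exact hh.2
  have hlt : ∀ i j, a i j < b i j := by
    intro i j
    rw [← φ.lt_iff_lt, ha, hb]; exact (he i j).1
  let HH : SimpleGraph (Fin V.card) :=
    { Adj := fun x y => ∃ i j, (a i j, b i j) = (x, y) ∨ (a i j, b i j) = (y, x)
      symm := ⟨by rintro x y ⟨i, j, hh⟩; exact ⟨i, j, hh.symm⟩⟩
      loopless := ⟨by
        rintro x ⟨i, j, hh⟩
        have hl := hlt i j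
        rcases hh with hh | hh
        · rw [Prod.mk.injEq] at hh; rw [hh.1, hh.2] at hl; exact lt_irrefl _ hl
        · rw [Prod.mk.injEq] at hh; rw [hh.1, hh.2] at hl; exact lt_irrefl _ hl⟩ }
  refine ⟨⟨V.card, HH⟩, ⟨fun i j => (a i j, b i j), hlt, fun x y => Iff.rfl, ?_, ?_⟩, φ, φ.strictMono, ?_⟩
  · intro v
    have hv : φ v ∈ V := by rw [hφ]; exact Finset.orderEmbOfFin_mem _ _ _
    obtain ⟨_, i, j, hh⟩ := Finset.mem_filter.1 hv
    refine ⟨i, j, ?_⟩
    rcases hh with hh | hh
    · left; apply φ.injective; rw [ha]; exact hh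
    · right; apply φ.injective; rw [hb]; exact hh
  · rcases h with ⟨hA, hB⟩ | ⟨hA, hB⟩
    · left
      refine ⟨fun i j j' hne => ?_, fun i i' j j' hne => ?_⟩
      · exact (hA i j j' hne).imp (hns _ _ _ _) (hns _ _ _ _)
      · exact (hB i i' j j' hne).imp (hcr _ _ _ _) (hcr _ _ _ _)
    · right
      refine ⟨fun i j j' hne => ?_, fun i i' j j' hne => ?_⟩
      · exact (hA i j j' hne).imp (hcr _ _ _ _) (hcr _ _ _ _)
      · exact (hB i i' j j' hne).imp (hns _ _ _ _) (hns _ _ _ _)
  · rintro x y ⟨i, j, hh⟩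
    rcases hh with hh | hh
    · rw [Prod.mk.injEq] at hh
      have := (he i j).2
      rw [← ha, ← hb, hh.1, hh.2] at this
      exact this
    · rw [Prod.mk.injEq] at hh
      have := (he i j).2
      rw [← ha, ← hb, hh.1, hh.2] at this
      exact this.symm

lemma fam_pull {n k : ℕ} (G : SimpleGraph (Fin n)) (A B : Ed → Ed → Prop)
    (A' B' : Fin n × Fin n → Fin n × Fin n → Prop)
    (hA : ∀ e f, A (vl e) (vl f) → A' e f) (hB : ∀ e f, B (vl e) (vl f) → B' e f)
    (h : Fam A B (edges G) k k) :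
    ∃ e : Fin k → Fin k → Fin n × Fin n, (∀ i j, IsEdge G (e i j)) ∧
      (∀ i j j', j ≠ j' → A' (e i j) (e i j') ∨ A' (e i j') (e i j)) ∧
      (∀ i i' j j', i ≠ i' → B' (e i j) (e i' j') ∨ B' (e i' j') (e i j)) := by
  obtain ⟨e, he1, he2, he3⟩ := h
  have hex : ∀ i j : Fin k, ∃ x : Fin n × Fin n, IsEdge G x ∧ vl x = e i j := fun i j =>
    mem_edges.1 (he1 i i.2 j j.2)
  choose g hg1 hg2 using hex
  refine ⟨g, hg1, ?_, ?_⟩
  · intro i j j' hne
    rcases lt_or_gt_of_ne hne with hlt | hlt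
    · left; apply hA; rw [hg2, hg2]; exact he2 i i.2 j j' hlt j'.2
    · right; apply hA; rw [hg2, hg2]; exact he2 i i.2 j' j hlt j.2
  · intro i i' j j' hne
    rcases lt_or_gt_of_ne hne with hlt | hlt
    · left; apply hB; rw [hg2, hg2]; exact he3 i i' hlt i'.2 j j.2 j' j'.2
    · right; apply hB; rw [hg2, hg2]; exact he3 i' i hlt i.2 j' j'.2 j j.2

/-- **Answer to Q1: yes, with a polynomial `f`.** For every `k ≥ 1` the set of `k`-thick patterns is
a finite set of ordered graphs with at least one edge; every ordered graph avoiding all `k`-thick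
patterns has mixed page number less than `301 k ^ 4`, and every ordered graph containing a
`k`-thick pattern has mixed page number at least `k`. -/
theorem result :
    (∀ k : ℕ, {H : OGraph | IsThick k H}.Finite) ∧
    (∀ k : ℕ, 1 ≤ k → ∀ H : OGraph, IsThick k H → ∃ x y, H.2.Adj x y) ∧
    ∀ k : ℕ, 1 ≤ k → ∀ (n : ℕ) (G : SimpleGraph (Fin n)),
      ((∀ H : OGraph, IsThick k H → ¬ Contains G H) → mn G < 301 * k ^ 4) ∧
      ((∃ H : OGraph, IsThick k H ∧ Contains G H) → k ≤ mn G) := by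
  classical
  refine ⟨?_, ?_, ?_⟩
  · intro k
    have hfin : (⋃ m ∈ Finset.range (2 * (k * k) + 1),
        Set.range (fun G : SimpleGraph (Fin m) => (⟨m, G⟩ : OGraph))).Finite :=
      Set.Finite.biUnion (Finset.finite_toSet _) (fun m _ => Set.finite_range _)
    refine hfin.subset ?_
    rintro ⟨m, G⟩ ⟨e, _, _, h3, _⟩
    have hcard : m ≤ 2 * (k * k) := by
      let F : Fin k × Fin k × Bool → Fin m := fun p => if p.2.2 then (e p.1 p.2.1).1 else (e p.1 p.2.1).2
      have hsurj : Function.Surjective F := by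
        intro v
        obtain ⟨i, j, hh⟩ := h3 v
        rcases hh with hh | hh
        · exact ⟨(i, j, true), by simp [F, hh]⟩
        · exact ⟨(i, j, false), by simp [F, hh]⟩
      have := Fintype.card_le_of_surjective F hsurj
      simp only [Fintype.card_fin, Fintype.card_prod, Fintype.card_bool] at this
      nlinarith
    simp only [Set.mem_iUnion, Set.mem_range]
    exact ⟨m, Finset.mem_range.2 (by omega), G, rfl⟩
  · rintro k hk ⟨m, G⟩ ⟨e, _, h2, _, _⟩
    exact ⟨_, _, (h2 _ _).2 ⟨⟨0, hk⟩, ⟨0, hk⟩, Or.inl rfl⟩⟩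
  · refine fun k hk n G => ⟨fun hav => ?_, ?_⟩
    · have hsq : SQ (edges G) (5 * k ^ 4 + 79 * k ^ 3 + 65 * k ^ 2 + k) := by
        refine main_thm k hk _ (wf_edges G) ?_ ?_
        · intro h
          obtain ⟨e, he1, he2, he3⟩ := fam_pull G Cr Ns Cross Nest
            (fun _ _ h => h) (fun _ _ h => h) h
          obtain ⟨H, hH1, hH2⟩ := fam_thick G e he1 (Or.inr ⟨he2, he3⟩)
          exact hav H hH1 hH2
        · intro h
          obtain ⟨e, he1, he2, he3⟩ := fam_pull G Ns Cr Nest Cross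
            (fun _ _ h => h) (fun _ _ h => h) h
          obtain ⟨H, hH1, hH2⟩ := fam_thick G e he1 (Or.inl ⟨he2, he3⟩)
          exact hav H hH1 hH2
      have hle := mn_le (sq_pages G _ hsq)
      have h1 : 1 ≤ k ^ 4 := Nat.one_le_pow _ _ hk
      have h2 : k ^ 3 ≤ k ^ 4 := Nat.pow_le_pow_right hk (by norm_num)
      have h3 : k ^ 2 ≤ k ^ 4 := Nat.pow_le_pow_right hk (by norm_num)
      have h4 : k ≤ k ^ 4 := by
        calc k = k ^ 1 := (pow_one k).symm
          _ ≤ k ^ 4 := Nat.pow_le_pow_right hk (by norm_num)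
      omega
    · rintro ⟨H, hH1, hH2⟩
      exact thick_lower G H hH1 hH2

end Pool.Agent.Results.MP_42bdc2_co.Polynomial
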